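import Pool.Agent.CBG.StmtsA

/-!
# Squad CBG, row CNF: conformal change (MP_148648_gt)
-/

set_option autoImplicit false
set_option maxSynthPendingDepth 3

open scoped Manifold ContDiff Topology
open Set Filter MeasureTheory

namespace Pool.Agent.CBG.H69

open Pool.Agent.CBG

/-- evaluation of the derivatives of a family of bilinear forms -/
theorem eval_fderiv {n : ℕ} (K : Ed n → Bil (Ed n)) (hK : ContDiffAt ℝ 2 K 0) (v z : Ed n) :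
    (∀ u, fderiv ℝ (fun y => K y v z) 0 u = fderiv ℝ K 0 u v z) ∧
    (∀ u u', fderiv ℝ (fderiv ℝ (fun y => K y v z)) 0 u u' =
      fderiv ℝ (fderiv ℝ K) 0 u u' v z) ∧ ContDiffAt ℝ 2 (fun y => K y v z) 0 := by
  let L : Bil (Ed n) →L[ℝ] ℝ :=
    (ContinuousLinearMap.apply ℝ ℝ z).comp (ContinuousLinearMap.apply ℝ (Ed n →L[ℝ] ℝ) v)
  have hL : (fun y => K y v z) = fun y => L (K y) := rfl
  have hd : ∀ᶠ y in 𝓝 (0 : Ed n), DifferentiableAt ℝ K y :=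
    (hK.eventually (by simp)).mono (fun y hy => hy.differentiableAt (by norm_num))
  have h1 : (fderiv ℝ (fun y => K y v z)) =ᶠ[𝓝 (0 : Ed n)] fun y => L.comp (fderiv ℝ K y) := by
    filter_upwards [hd] with y hy
    rw [hL]
    exact (L.hasFDerivAt.comp y hy.hasFDerivAt).fderiv
  have hd2 : DifferentiableAt ℝ (fderiv ℝ K) 0 :=
    (hK.fderiv_right (m := 1) (by norm_num)).differentiableAt (by norm_num)
  refine ⟨?_, ?_, ?_⟩
  · intro u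
    rw [h1.eq_of_nhds]
    rfl
  · intro u u'
    rw [h1.fderiv_eq]
    have h2 : HasFDerivAt (fun y => L.comp (fderiv ℝ K y))
        (((ContinuousLinearMap.compL ℝ (Ed n) (Bil (Ed n)) ℝ) L).comp
          (fderiv ℝ (fderiv ℝ K) 0)) 0 :=
      (((ContinuousLinearMap.compL ℝ (Ed n) (Bil (Ed n)) ℝ) L).hasFDerivAt).comp 0
        hd2.hasFDerivAt
    rw [h2.fderiv]
    rfl
  · rw [hL]
    exact L.contDiff.contDiffAt.comp 0 hK

/-- derivatives of a product -/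
theorem mul_fderiv {n : ℕ} (f g : Ed n → ℝ) (hf : ContDiffAt ℝ 2 f 0) (hg : ContDiffAt ℝ 2 g 0) :
    (∀ u, fderiv ℝ (fun y => f y * g y) 0 u = f 0 * fderiv ℝ g 0 u + g 0 * fderiv ℝ f 0 u) ∧
    (∀ u u', fderiv ℝ (fderiv ℝ (fun y => f y * g y)) 0 u u' =
      f 0 * fderiv ℝ (fderiv ℝ g) 0 u u' + fderiv ℝ f 0 u * fderiv ℝ g 0 u' +
      fderiv ℝ g 0 u * fderiv ℝ f 0 u' + g 0 * fderiv ℝ (fderiv ℝ f) 0 u u') := by
  have hdf : ∀ᶠ y in 𝓝 (0 : Ed n), DifferentiableAt ℝ f y :=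
    (hf.eventually (by simp)).mono (fun y hy => hy.differentiableAt (by norm_num))
  have hdg : ∀ᶠ y in 𝓝 (0 : Ed n), DifferentiableAt ℝ g y :=
    (hg.eventually (by simp)).mono (fun y hy => hy.differentiableAt (by norm_num))
  have h1 : (fderiv ℝ (fun y => f y * g y)) =ᶠ[𝓝 (0 : Ed n)]
      fun y => f y • fderiv ℝ g y + g y • fderiv ℝ f y := by
    filter_upwards [hdf, hdg] with y hy1 hy2
    exact (hy1.hasFDerivAt.mul hy2.hasFDerivAt).fderiv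
  have hd2f : DifferentiableAt ℝ (fderiv ℝ f) 0 :=
    (hf.fderiv_right (m := 1) (by norm_num)).differentiableAt (by norm_num)
  have hd2g : DifferentiableAt ℝ (fderiv ℝ g) 0 :=
    (hg.fderiv_right (m := 1) (by norm_num)).differentiableAt (by norm_num)
  have hf0 := hdf.self_of_nhds
  have hg0 := hdg.self_of_nhds
  refine ⟨?_, ?_⟩
  · intro u
    rw [h1.eq_of_nhds]
    rfl
  · intro u u'
    rw [h1.fderiv_eq]
    have h2 := (hf0.hasFDerivAt.smul hd2g.hasFDerivAt).add (hg0.hasFDerivAt.smul hd2f.hasFDerivAt)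
    have h3 := congrArg (fun T => T u u') h2.fderiv
    refine h3.trans ?_
    simp only [ContinuousLinearMap.add_apply, ContinuousLinearMap.coe_smul', Pi.smul_apply,
      ContinuousLinearMap.smulRight_apply, smul_eq_mul]
    ring

/-- derivatives of the inverse square -/
theorem inv_fderiv {n : ℕ} (w : Ed n → ℝ) (hw : ContDiffAt ℝ 2 w 0) (h0 : 0 < w 0) :
    ContDiffAt ℝ 2 (fun y => ((w y)⁻¹) ^ 2) 0 ∧
    (∀ u, fderiv ℝ (fun y => ((w y)⁻¹) ^ 2) 0 u = -2 * (w 0)⁻¹ ^ 3 * fderiv ℝ w 0 u) ∧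
    (∀ u u', fderiv ℝ (fderiv ℝ (fun y => ((w y)⁻¹) ^ 2)) 0 u u' =
      -2 * (w 0)⁻¹ ^ 3 * fderiv ℝ (fderiv ℝ w) 0 u u' +
        6 * (w 0)⁻¹ ^ 4 * fderiv ℝ w 0 u * fderiv ℝ w 0 u') := by
  have hq : ContDiffAt ℝ 2 (fun y => (w y)⁻¹) 0 := hw.inv (ne_of_gt h0)
  obtain ⟨m1, m2⟩ := mul_fderiv (fun y => (w y)⁻¹) w hq hw
  obtain ⟨s1, s2⟩ := mul_fderiv (fun y => (w y)⁻¹) (fun y => (w y)⁻¹) hq hq
  have hsq : (fun y => ((w y)⁻¹) ^ 2) = fun y => (w y)⁻¹ * (w y)⁻¹ := by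
    funext y
    ring
  have hpos : ∀ᶠ y in 𝓝 (0 : Ed n), 0 < w y :=
    hw.continuousAt.eventually (lt_mem_nhds h0)
  have hone : (fun y => (w y)⁻¹ * w y) =ᶠ[𝓝 (0 : Ed n)] fun _ => (1 : ℝ) := by
    filter_upwards [hpos] with y hy
    exact inv_mul_cancel₀ (ne_of_gt hy)
  have hz1 : ∀ u, fderiv ℝ (fun y => (w y)⁻¹ * w y) 0 u = 0 := by
    intro u
    rw [hone.fderiv_eq]
    simp
  have hz2 : ∀ u u', fderiv ℝ (fderiv ℝ (fun y => (w y)⁻¹ * w y)) 0 u u' = 0 := by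
    intro u u'
    have h1 : (fderiv ℝ (fun y => (w y)⁻¹ * w y)) =ᶠ[𝓝 (0 : Ed n)]
        fderiv ℝ (fun _ : Ed n => (1 : ℝ)) := hone.fderiv
    rw [h1.fderiv_eq]
    have h2 : (fderiv ℝ (fun _ : Ed n => (1 : ℝ))) = fun _ => 0 := by
      funext y
      simp
    rw [h2]
    simp
  have hw0 : (w 0)⁻¹ * w 0 = 1 := inv_mul_cancel₀ (ne_of_gt h0)
  have d1 : ∀ u, fderiv ℝ (fun y => (w y)⁻¹) 0 u = -(w 0)⁻¹ ^ 2 * fderiv ℝ w 0 u := by
    intro u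
    have h1 := (m1 u).symm.trans (hz1 u)
    have h2 : (w 0)⁻¹ * ((w 0)⁻¹ * fderiv ℝ w 0 u + w 0 * fderiv ℝ (fun y => (w y)⁻¹) 0 u) = 0 := by
      rw [h1, mul_zero]
    linear_combination h2 - fderiv ℝ (fun y => (w y)⁻¹) 0 u * hw0
  have d2 : ∀ u u', fderiv ℝ (fderiv ℝ (fun y => (w y)⁻¹)) 0 u u' =
      -(w 0)⁻¹ ^ 2 * fderiv ℝ (fderiv ℝ w) 0 u u' +
        2 * (w 0)⁻¹ ^ 3 * fderiv ℝ w 0 u * fderiv ℝ w 0 u' := by
    intro u u'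
    have h1 := (m2 u u').symm.trans (hz2 u u')
    rw [d1 u, d1 u'] at h1
    have h2 := congrArg (fun t => (w 0)⁻¹ * t) h1
    simp only [mul_zero] at h2
    linear_combination h2 - fderiv ℝ (fderiv ℝ (fun y => (w y)⁻¹)) 0 u u' * hw0
  refine ⟨hq.pow 2, ?_, ?_⟩
  · intro u
    rw [hsq, s1 u, d1 u]
    ring
  · intro u u'
    rw [hsq, s2 u u', d1 u, d1 u', d2 u u']
    ring

/-- the final identity -/
theorem final_ident (q W gvv gvz gzz PP dv dz da db dc A B C1 C2 Gv Gz Gm wvv wzz wvz Gaa Gbc : ℝ)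
    (hq : q * W = 1) :
    W ^ 3 * (-((q ^ 2 * Gv - 4 * q ^ 3 * dv * A + (-2 * q ^ 3 * wvv + 6 * q ^ 4 * dv * dv) * gzz) +
        (q ^ 2 * Gz - 4 * q ^ 3 * dz * B + (-2 * q ^ 3 * wzz + 6 * q ^ 4 * dz * dz) * gvv) -
        2 * (q ^ 2 * Gm - 2 * q ^ 3 * dv * C2 - 2 * q ^ 3 * dz * C1 +
          (-2 * q ^ 3 * wvz + 6 * q ^ 4 * dv * dz) * gvz)) / 2 +
      q ^ 2 * (Gaa - 2 * q * (dv * A / 2 + dz * B / 2 - gvz * da) +
        q ^ 2 * (dv ^ 2 * gzz + dz ^ 2 * gvv + gvz ^ 2 * PP - 2 * dv * dz * gvz)) -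
      q ^ 2 * (Gbc - q * (2 * dz * (C1 - B / 2) - gzz * db) - q * (2 * dv * (C2 - A / 2) - gvv * dc) +
        q ^ 2 * (4 * dv * dz * gvz - 2 * dv ^ 2 * gzz - 2 * dz ^ 2 * gvv + gvv * gzz * PP))) =
    W * (-(Gv + Gz - 2 * Gm) / 2 + Gaa - Gbc) +
      (wvv * gzz + wzz * gvv - 2 * wvz * gvz) - (db * gzz + dc * gvv - 2 * da * gvz) -
      q * PP * (gvv * gzz - gvz ^ 2) := by
  have h1 : W ^ 3 * q ^ 2 = W := by
    have : W ^ 3 * q ^ 2 = W * (q * W) ^ 2 := by ring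
    rw [this, hq]
    ring
  have h2 : W ^ 3 * q ^ 3 = 1 := by
    have : W ^ 3 * q ^ 3 = (q * W) ^ 3 := by ring
    rw [this, hq]
    ring
  have h3 : W ^ 3 * q ^ 4 = q := by
    have : W ^ 3 * q ^ 4 = q * (q * W) ^ 3 := by ring
    rw [this, hq]
    ring
  linear_combination (-(Gv + Gz - 2 * Gm) / 2 + Gaa - Gbc) * h1 +
    ((wvv * gzz + wzz * gvv - 2 * wvz * gvz) - (db * gzz + dc * gvv - 2 * da * gvz)) * h2 -
    PP * (gvv * gzz - gvz ^ 2) * h3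

set_option maxHeartbeats 2000000 in
theorem cnf (hCHX : ChxStmt) (hSYM : SymStmt) : CnfStmt := by
  intro n G w hG hw hw0 hsym hpos hPos v z a b c hlin ha hb hc
  obtain ⟨hf2, hf_d1, hf_d2⟩ := inv_fderiv w hw hw0
  obtain ⟨hS1, _, _⟩ := hSYM n G hG hsym
  have hs0 : ∀ x y : Ed n, G 0 x y = G 0 y x := hsym.self_of_nhds
  have hH : ContDiffAt ℝ 2 (fun y => ((w y)⁻¹) ^ 2 • G y) 0 := hf2.smul hG
  have H1 : ∀ u x y : Ed n, fderiv ℝ (fun y => ((w y)⁻¹) ^ 2 • G y) 0 u x y =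
      (w 0)⁻¹ ^ 2 * fderiv ℝ G 0 u x y - 2 * (w 0)⁻¹ ^ 3 * fderiv ℝ w 0 u * G 0 x y := by
    intro u x y
    rw [← (eval_fderiv _ hH x y).1 u]
    have h1 := (mul_fderiv (fun t => ((w t)⁻¹) ^ 2) (fun t => G t x y) hf2
      (eval_fderiv G hG x y).2.2).1 u
    have h2 : (fun t => (((w t)⁻¹) ^ 2 • G t) x y) = fun t => ((w t)⁻¹) ^ 2 * G t x y := rfl
    rw [h2, h1, (eval_fderiv G hG x y).1, hf_d1]
    ring
  have H2 : ∀ u u' x y : Ed n,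
      fderiv ℝ (fderiv ℝ (fun y => ((w y)⁻¹) ^ 2 • G y)) 0 u u' x y =
      (w 0)⁻¹ ^ 2 * fderiv ℝ (fderiv ℝ G) 0 u u' x y -
        2 * (w 0)⁻¹ ^ 3 * fderiv ℝ w 0 u * fderiv ℝ G 0 u' x y -
        2 * (w 0)⁻¹ ^ 3 * fderiv ℝ w 0 u' * fderiv ℝ G 0 u x y +
        (-2 * (w 0)⁻¹ ^ 3 * fderiv ℝ (fderiv ℝ w) 0 u u' +
          6 * (w 0)⁻¹ ^ 4 * fderiv ℝ w 0 u * fderiv ℝ w 0 u') * G 0 x y := by
    intro u u' x y
    rw [← (eval_fderiv _ hH x y).2.1 u u']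
    have h1 := (mul_fderiv (fun t => ((w t)⁻¹) ^ 2) (fun t => G t x y) hf2
      (eval_fderiv G hG x y).2.2).2 u u'
    have h2 : (fun t => (((w t)⁻¹) ^ 2 • G t) x y) = fun t => ((w t)⁻¹) ^ 2 * G t x y := rfl
    rw [h2, h1, (eval_fderiv G hG x y).1, (eval_fderiv G hG x y).1, (eval_fderiv G hG x y).2.1,
      hf_d1, hf_d1, hf_d2]
    ring
  obtain ⟨P, hP⟩ := (hCHX.1 n (G 0) hpos).1 (fderiv ℝ w 0 : Ed n →ₗ[ℝ] ℝ)
  have hP1 : ∀ x, G 0 P x = fderiv ℝ w 0 x := fun x => hP x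
  have hP2 : ∀ x, G 0 x P = fderiv ℝ w 0 x := fun x => (hs0 x P).trans (hP x)
  have hA : IsChr (fun y => ((w y)⁻¹) ^ 2 • G y) 0 v z
      (a - (w 0)⁻¹ • (fderiv ℝ w 0 v • z + fderiv ℝ w 0 z • v - G 0 v z • P)) := by
    intro u
    have e1 := ha u
    unfold chr at e1 ⊢
    rw [H1, H1, H1]
    show (w 0)⁻¹ ^ 2 * G 0 _ u = _
    simp only [map_sub, map_add, map_smul, ContinuousLinearMap.sub_apply,
      ContinuousLinearMap.add_apply, ContinuousLinearMap.coe_smul', Pi.smul_apply, smul_eq_mul,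
      hP1]
    rw [e1]
    ring
  have hB : IsChr (fun y => ((w y)⁻¹) ^ 2 • G y) 0 v v
      (b - (w 0)⁻¹ • ((2 * fderiv ℝ w 0 v) • v - G 0 v v • P)) := by
    intro u
    have e1 := hb u
    unfold chr at e1 ⊢
    rw [H1, H1]
    show (w 0)⁻¹ ^ 2 * G 0 _ u = _
    simp only [map_sub, map_smul, ContinuousLinearMap.sub_apply,
      ContinuousLinearMap.coe_smul', Pi.smul_apply, smul_eq_mul, hP1]
    rw [e1]
    ring
  have hC : IsChr (fun y => ((w y)⁻¹) ^ 2 • G y) 0 z z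
      (c - (w 0)⁻¹ • ((2 * fderiv ℝ w 0 z) • z - G 0 z z • P)) := by
    intro u
    have e1 := hc u
    unfold chr at e1 ⊢
    rw [H1, H1]
    show (w 0)⁻¹ ^ 2 * G 0 _ u = _
    simp only [map_sub, map_smul, ContinuousLinearMap.sub_apply,
      ContinuousLinearMap.coe_smul', Pi.smul_apply, smul_eq_mul, hP1]
    rw [e1]
    ring
  have hcurv := hPos v z _ _ _ hlin hA hB hC
  -- values of the Christoffel vectors
  have az := ha z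
  have av := ha v
  have bz := hb z
  have cv := hc v
  unfold chr at az av bz cv
  have hid := final_ident (w 0)⁻¹ (w 0) (G 0 v v) (G 0 v z) (G 0 z z) (fderiv ℝ w 0 P)
    (fderiv ℝ w 0 v) (fderiv ℝ w 0 z) (fderiv ℝ w 0 a) (fderiv ℝ w 0 b) (fderiv ℝ w 0 c)
    (fderiv ℝ G 0 v z z) (fderiv ℝ G 0 z v v) (fderiv ℝ G 0 v v z) (fderiv ℝ G 0 z v z)
    (fderiv ℝ (fderiv ℝ G) 0 v v z z) (fderiv ℝ (fderiv ℝ G) 0 z z v v)
    (fderiv ℝ (fderiv ℝ G) 0 v z v z) (fderiv ℝ (fderiv ℝ w) 0 v v)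
    (fderiv ℝ (fderiv ℝ w) 0 z z) (fderiv ℝ (fderiv ℝ w) 0 v z) (G 0 a a) (G 0 b c)
    (inv_mul_cancel₀ (ne_of_gt hw0))
  have haa : (fun y => ((w y)⁻¹) ^ 2 • G y) 0
      (a - (w 0)⁻¹ • (fderiv ℝ w 0 v • z + fderiv ℝ w 0 z • v - G 0 v z • P))
      (a - (w 0)⁻¹ • (fderiv ℝ w 0 v • z + fderiv ℝ w 0 z • v - G 0 v z • P)) =
      (w 0)⁻¹ ^ 2 * (G 0 a a - 2 * (w 0)⁻¹ * (fderiv ℝ w 0 v * fderiv ℝ G 0 v z z / 2 +
        fderiv ℝ w 0 z * fderiv ℝ G 0 z v v / 2 - G 0 v z * fderiv ℝ w 0 a) +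
        (w 0)⁻¹ ^ 2 * (fderiv ℝ w 0 v ^ 2 * G 0 z z + fderiv ℝ w 0 z ^ 2 * G 0 v v +
          G 0 v z ^ 2 * fderiv ℝ w 0 P - 2 * fderiv ℝ w 0 v * fderiv ℝ w 0 z * G 0 v z)) := by
    show (w 0)⁻¹ ^ 2 * G 0 _ _ = _
    simp only [map_sub, map_add, map_smul, ContinuousLinearMap.sub_apply,
      ContinuousLinearMap.add_apply, ContinuousLinearMap.coe_smul', Pi.smul_apply, smul_eq_mul,
      hP1, hP2]
    rw [hs0 z a, hs0 v a, hs0 z v, az, av, hS1 v z v]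
    ring
  have hbc : (fun y => ((w y)⁻¹) ^ 2 • G y) 0
      (b - (w 0)⁻¹ • ((2 * fderiv ℝ w 0 v) • v - G 0 v v • P))
      (c - (w 0)⁻¹ • ((2 * fderiv ℝ w 0 z) • z - G 0 z z • P)) =
      (w 0)⁻¹ ^ 2 * (G 0 b c - (w 0)⁻¹ * (2 * fderiv ℝ w 0 z * (fderiv ℝ G 0 v v z -
          fderiv ℝ G 0 z v v / 2) - G 0 z z * fderiv ℝ w 0 b) -
        (w 0)⁻¹ * (2 * fderiv ℝ w 0 v * (fderiv ℝ G 0 z v z - fderiv ℝ G 0 v z z / 2) -
          G 0 v v * fderiv ℝ w 0 c) +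
        (w 0)⁻¹ ^ 2 * (4 * fderiv ℝ w 0 v * fderiv ℝ w 0 z * G 0 v z -
          2 * fderiv ℝ w 0 v ^ 2 * G 0 z z - 2 * fderiv ℝ w 0 z ^ 2 * G 0 v v +
          G 0 v v * G 0 z z * fderiv ℝ w 0 P)) := by
    show (w 0)⁻¹ ^ 2 * G 0 _ _ = _
    simp only [map_sub, map_smul, ContinuousLinearMap.sub_apply,
      ContinuousLinearMap.coe_smul', Pi.smul_apply, smul_eq_mul, hP1, hP2]
    rw [hs0 v c, bz, cv, hS1 z z v]
    ring
  have hkey : w 0 ^ 3 * curv (fun y => ((w y)⁻¹) ^ 2 • G y) 0 v z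
      (a - (w 0)⁻¹ • (fderiv ℝ w 0 v • z + fderiv ℝ w 0 z • v - G 0 v z • P))
      (b - (w 0)⁻¹ • ((2 * fderiv ℝ w 0 v) • v - G 0 v v • P))
      (c - (w 0)⁻¹ • ((2 * fderiv ℝ w 0 z) • z - G 0 z z • P)) =
      w 0 * curv G 0 v z a b c +
        (fderiv ℝ (fderiv ℝ w) 0 v v * G 0 z z + fderiv ℝ (fderiv ℝ w) 0 z z * G 0 v v
          - 2 * fderiv ℝ (fderiv ℝ w) 0 v z * G 0 v z)
        - (fderiv ℝ w 0 b * G 0 z z + fderiv ℝ w 0 c * G 0 v v - 2 * fderiv ℝ w 0 a * G 0 v z) -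
        (w 0)⁻¹ * fderiv ℝ w 0 P * (G 0 v v * G 0 z z - G 0 v z ^ 2) := by
    unfold curv
    rw [haa, hbc, H2, H2, H2]
    linear_combination hid
  have hv0 : v ≠ 0 := hlin.ne_zero 0
  have hvv : 0 < G 0 v v := hpos v hv0
  have hPP : 0 ≤ fderiv ℝ w 0 P := by
    rw [← hP1 P]
    by_cases hP0 : P = 0
    · rw [hP0]
      simp
    · exact (hpos P hP0).le
  have hCS : 0 ≤ G 0 v v * G 0 z z - G 0 v z ^ 2 := by
    have h1 : 0 ≤ G 0 (G 0 v v • z - G 0 v z • v) (G 0 v v • z - G 0 v z • v) := by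
      by_cases h0 : G 0 v v • z - G 0 v z • v = 0
      · rw [h0]
        simp
      · exact (hpos _ h0).le
    have h2 : G 0 (G 0 v v • z - G 0 v z • v) (G 0 v v • z - G 0 v z • v) =
        G 0 v v * (G 0 v v * G 0 z z - G 0 v z ^ 2) := by
      simp only [map_sub, map_smul, ContinuousLinearMap.sub_apply,
        ContinuousLinearMap.coe_smul', Pi.smul_apply, smul_eq_mul]
      rw [hs0 z v]
      ring
    rw [h2] at h1
    exact nonneg_of_mul_nonneg_right h1 hvv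
  have hlast : 0 ≤ (w 0)⁻¹ * fderiv ℝ w 0 P * (G 0 v v * G 0 z z - G 0 v z ^ 2) :=
    mul_nonneg (mul_nonneg (inv_pos.2 hw0).le hPP) hCS
  have hpos3 := mul_pos (pow_pos hw0 3) hcurv
  rw [hkey] at hpos3
  linarith

end Pool.Agent.CBG.H69
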